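import Mathlib

/-! A test polynomial and a counting inequality. -/

set_option autoImplicit false

namespace Pool.Agent.Lib.MP_4f0d88_nt.ED

open Polynomial Finset

theorem taylor_X_sub (r : ℤ) (k : ℕ) (ψ : ℤ[X]) :
    taylor r ((X - C r) ^ k * ψ) = X ^ k * taylor r ψ := by
  rw [taylor_mul, taylor_pow, map_sub, taylor_X, taylor_C, add_sub_cancel_right]

theorem dual {p K M : ℕ} (hp : p.Prime) (w : ℕ → ℕ → ℚ) (τ : ℕ → ℕ) {t : ℚ} (ht : 0 ≤ t)
    (h0 : ∀ φ : ℤ[X], φ.natDegree < M →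
      ∑ r ∈ range p, ∑ k ∈ range K, ((taylor (r : ℤ) φ).coeff k : ℚ) * w r k = 0)
    (hb : ∃ r < p, ∃ k < K, t < padicNorm p (w r k))
    (hs : ∀ r < p, ∀ k < K, τ r ≤ k → padicNorm p (w r k) ≤ t) : M < ∑ r ∈ range p, τ r := by
  have := Fact.mk hp
  by_contra hc
  obtain ⟨r1, q1, k1, q2, q3⟩ := hb
  obtain ⟨x, hx, hm⟩ := exists_max_image (range p ×ˢ range K) (fun x => padicNorm p (w x.1 x.2))
    ⟨(r1, k1), by simp [q1, q2]⟩
  set μ := padicNorm p (w x.1 x.2)
  have hμ : t < μ := q3.trans_le (hm (r1, k1) (by simp [q1, q2]))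
  obtain ⟨k0, hk, hk'⟩ := exists_max_image ((range K).filter fun k => padicNorm p (w x.1 k) = μ) id
    ⟨x.2, mem_filter.2 ⟨(mem_product.1 hx).2, rfl⟩⟩
  obtain ⟨k1, k2⟩ := mem_filter.1 hk
  have hr := (mem_product.1 hx).1
  set r0 := x.1
  have k3 : k0 < τ r0 := by
    by_contra h
    exact absurd (hs r0 (mem_range.1 hr) k0 (mem_range.1 k1) (by omega)) (by rw [k2]; exact not_le.2 hμ)
  set ψ : ℤ[X] := ∏ r ∈ (range p).erase r0, (X - C (r : ℤ)) ^ τ r with hψ
  have hd : ((X - C (r0 : ℤ)) ^ k0 * ψ).natDegree < M := by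
    have h1 : ψ.natDegree ≤ ∑ r ∈ (range p).erase r0, τ r :=
      (natDegree_prod_le _ _).trans (sum_le_sum fun r _ => by
        simpa using natDegree_pow_le_of_le (τ r) (natDegree_X_sub_C_le (r : ℤ)))
    have h2 : ((X - C (r0 : ℤ)) ^ k0).natDegree ≤ k0 := by
      simpa using natDegree_pow_le_of_le k0 (natDegree_X_sub_C_le (r0 : ℤ))
    have h3 := natDegree_mul_le (p := (X - C (r0 : ℤ)) ^ k0) (q := ψ)
    have h4 := add_sum_erase _ τ hr
    omega
  have e := h0 _ hd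
  have hlt : ∀ (c : ℤ) (u : ℚ), padicNorm p u < μ → padicNorm p (c * u) < μ := fun c u h => by
    rw [padicNorm.mul]
    exact (mul_le_of_le_one_left (padicNorm.nonneg _) (padicNorm.of_int c)).trans_lt h
  have h00 : ∀ u : ℚ, padicNorm p (((0 : ℤ) : ℚ) * u) < μ := fun u => by
    simpa using ht.trans_lt hμ
  rw [← add_sum_erase _ _ hr, ← add_sum_erase _ _ k1, add_assoc] at e
  have e1 := congrArg (padicNorm p) (eq_neg_of_add_eq_zero_left e)
  have hu : padicNorm p ((taylor (r0 : ℤ) ((X - C (r0 : ℤ)) ^ k0 * ψ)).coeff k0 : ℤ) = 1 := by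
    rw [padicNorm.int_eq_one_iff, taylor_X_sub, coeff_X_pow_mul', if_pos le_rfl, Nat.sub_self,
      taylor_coeff_zero, hψ, eval_prod]
    intro h
    obtain ⟨r, h1, h2⟩ := (Nat.prime_iff_prime_int.1 hp).exists_mem_finset_dvd h
    rw [eval_pow, eval_sub, eval_X, eval_C] at h2
    have h3 := Nat.modEq_iff_dvd.2 ((Nat.prime_iff_prime_int.1 hp).dvd_of_dvd_pow h2)
    obtain ⟨h4, h5⟩ := mem_erase.1 h1
    exact h4 (Nat.ModEq.eq_of_lt_of_lt h3 (mem_range.1 h5) (mem_range.1 hr))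
  rw [padicNorm.mul, hu, one_mul, k2, padicNorm.neg] at e1
  refine absurd e1 (ne_of_gt (padicNorm.nonarchimedean.trans_lt (max_lt
    (padicNorm.sum_lt' (fun k hk => ?_) (ht.trans_lt hμ))
    (padicNorm.sum_lt' (fun r h => padicNorm.sum_lt' (fun k hk => ?_) (ht.trans_lt hμ))
      (ht.trans_lt hμ)))))
  · obtain ⟨h1, h2⟩ := mem_erase.1 hk
    rcases lt_or_gt_of_ne h1 with h | h
    · rw [taylor_X_sub, coeff_X_pow_mul', if_neg (by omega)]
      exact h00 _
    · refine hlt _ _ (lt_of_le_of_ne (hm (r0, k) (mem_product.2 ⟨hr, h2⟩)) fun e => ?_)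
      exact absurd (hk' k (mem_filter.2 ⟨h2, e⟩)) (not_le.2 h)
  · by_cases h1 : τ r ≤ k
    · exact hlt _ _ ((hs r (mem_range.1 (mem_erase.1 h).2) k (mem_range.1 hk) h1).trans_lt hμ)
    · rw [hψ, ← mul_prod_erase _ _ h, mul_left_comm, taylor_X_sub, coeff_X_pow_mul', if_neg h1]
      exact h00 _

theorem count {p N h V j l r1 r2 : ℕ} {n : ℕ → ℕ} (hn : ∑ r ∈ range p, n r ≤ N + h) (q1 : r1 < p)
    (q2 : r2 < p) (hne : r1 ≠ r2) (n1 : j ≤ n r1) (n2 : j ≤ n r2) (hl : 4 * l ≤ j)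
    (hτ : N - j < ∑ r ∈ range p, (min (n r) V + l - j)) : N ≤ 8 * h ∨ N * j ≤ 8 * h * V := by
  set R := (range p).filter fun r => j < min (n r) V + l with hR
  have e : ∑ r ∈ range p, (min (n r) V + l - j) = ∑ r ∈ R, (min (n r) V + l - j) :=
    (sum_filter_of_ne fun r _ h => by omega).symm
  rw [e] at hτ
  have h1 : ∑ r ∈ R, (min (n r) V + l - j) ≤ #R * V := by
    simpa using sum_le_card_nsmul R _ V fun r _ => by omega
  have h2 : ∑ r ∈ R, (min (n r) V + l - j) + #R * j ≤ ∑ r ∈ R, n r + #R * l := by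
    rw [← smul_eq_mul, ← smul_eq_mul, ← sum_const, ← sum_const, ← sum_add_distrib, ← sum_add_distrib]
    exact sum_le_sum fun r hr => by have := (mem_filter.1 hr).2; omega
  have h3 : ∑ r ∈ R, n r ≤ ∑ r ∈ range p, n r := sum_le_sum_of_subset (filter_subset _ _)
  have h4 : ∀ r < p, r ∉ R → ∑ r ∈ R, n r + n r ≤ ∑ r ∈ range p, n r := fun r hr h => by
    rw [add_comm, ← sum_insert h]
    exact sum_le_sum_of_subset (insert_subset (mem_range.2 hr) (filter_subset _ _))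
  have h5 : 0 < #R := card_pos.2 (nonempty_of_sum_ne_zero ((Nat.zero_le _).trans_lt hτ).ne')
  have h6 : #R * (4 * l) ≤ #R * j := Nat.mul_le_mul_left _ hl
  have h7 : #R * j ≤ 4 * h := by
    by_cases h8 : 2 ≤ #R
    · have := Nat.mul_le_mul_right j h8
      rw [mul_left_comm] at h6
      omega
    · have h9 : #R = 1 := by omega
      have : r1 ∉ R ∨ r2 ∉ R := by
        by_contra hc
        push Not at hc
        exact hne (card_le_one.1 h9.le _ hc.1 _ hc.2)
      rw [h9] at h2 ⊢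
      rcases this with h | h
      · have := h4 _ q1 h; omega
      · have := h4 _ q2 h; omega
  by_cases h8 : N ≤ 2 * j
  · have := Nat.le_mul_of_pos_left j h5
    omega
  · refine Or.inr ?_
    calc N * j ≤ 2 * (#R * V) * j := Nat.mul_le_mul_right _ (by omega)
      _ = 2 * V * (#R * j) := by ring
      _ ≤ 2 * V * (4 * h) := Nat.mul_le_mul_left _ h7
      _ = 8 * h * V := by ring

end Pool.Agent.Lib.MP_4f0d88_nt.ED
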