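import Mathlib

/-! Newton's identities with a small loss of divisibility. -/

set_option autoImplicit false

namespace Pool.Agent.Lib.MP_4f0d88_nt.ED

open Finset

/-- Power sums of a multiset. -/
def ps (A : Multiset ℤ) (i : ℕ) : ℤ := (A.map (· ^ i)).sum

theorem newton (A : Multiset ℤ) (k : ℕ) : (k : ℤ) * A.esymm k = (-1) ^ (k + 1) *
    ∑ a ∈ antidiagonal k with a.1 < k, (-1) ^ a.1 * A.esymm a.1 * ps A a.2 := by
  obtain ⟨n, f, rfl⟩ : ∃ (n : ℕ) (f : Fin n → ℤ), A = univ.val.map f := by
    induction A using Quotient.inductionOn with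
    | _ l => exact ⟨l.length, l.get, by simp [Fin.univ_val_map]⟩
  have e := congrArg (MvPolynomial.aeval f) (MvPolynomial.mul_esymm_eq_sum (Fin n) ℤ k)
  simp only [map_mul, map_natCast, map_pow, map_neg, map_one, map_sum,
    MvPolynomial.aeval_esymm_eq_multiset_esymm, MvPolynomial.psum, MvPolynomial.aeval_X] at e
  simpa only [ps, Multiset.map_map, Function.comp_def, sum_map_val] using e

theorem newton_sub (A B : Multiset ℤ) (k : ℕ) : (k : ℤ) * (A.esymm k - B.esymm k) = (-1) ^ (k + 1) *
    ∑ a ∈ antidiagonal k with a.1 < k, (-1) ^ a.1 *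
      ((A.esymm a.1 - B.esymm a.1) * ps A a.2 + B.esymm a.1 * (ps A a.2 - ps B a.2)) := by
  rw [mul_sub, newton, newton, ← mul_sub, ← sum_sub_distrib]
  congr 1
  exact sum_congr rfl fun a _ => by ring

theorem esymm_zero_of_lt {A : Multiset ℤ} {k : ℕ} (h : A.card < k) : A.esymm k = 0 := by
  rw [Multiset.esymm, Multiset.powersetCard_eq_empty k h]; rfl

theorem val_desc {p : ℕ} (hp : p.Prime) {i j : ℕ} (h : j ≤ i) :
    (i.descFactorial j).factorization p ≤ j / (p - 1) + Nat.log p i := by
  rw [Nat.descFactorial_eq_factorial_mul_choose, Nat.factorization_mul (Nat.factorial_ne_zero j)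
    (Nat.choose_pos h).ne', Finsupp.add_apply]
  exact add_le_add (Nat.factorization_factorial_le_div_pred hp j) Nat.factorization_choose_le_log

variable {p n V L : ℕ} {A B : Multiset ℤ}

theorem chain (hp : p.Prime) (h : ∀ i, 1 ≤ i → i ≤ n → (p : ℤ) ^ V ∣ p ^ i * (ps A i - ps B i))
    (k : ℕ) (hk : k ≤ n) : ∃ m, (∀ x ≤ k, (p : ℤ) ^ V ∣ p ^ m * (A.esymm x - B.esymm x)) ∧
      (m = 0 ∨ ∃ t < k, m + t ≤ k + (k.descFactorial (t + 1)).factorization p) := by
  induction k with
  | zero => exact ⟨0, fun x hx => by simp [Nat.le_zero.1 hx, Multiset.esymm], Or.inl rfl⟩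
  | succ k ih =>
    obtain ⟨m, h1, h2⟩ := ih (by omega)
    refine ⟨(k + 1).factorization p + max m (k + 1), fun x hx => ?_, Or.inr ?_⟩
    · rcases hx.eq_or_lt with rfl | hx
      · have h3 : (p : ℤ) ^ V ∣ p ^ max m (k + 1) *
            (((k + 1 : ℕ) : ℤ) * (A.esymm (k + 1) - B.esymm (k + 1))) := by
          rw [newton_sub, mul_left_comm, mul_sum]
          refine Dvd.dvd.mul_left (dvd_sum fun a ha => ?_) _
          obtain ⟨a1, a2⟩ := mem_filter.1 ha
          have a3 := mem_antidiagonal.1 a1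
          rw [mul_left_comm, mul_add, ← mul_assoc, mul_left_comm _ (B.esymm _)]
          refine Dvd.dvd.mul_left (dvd_add (Dvd.dvd.mul_right ?_ _) (Dvd.dvd.mul_left ?_ _)) _
          · exact (h1 _ (by omega)).trans (mul_dvd_mul_right (pow_dvd_pow _ (le_max_left _ _)) _)
          · exact (h _ (by omega) (by omega)).trans
              (mul_dvd_mul_right (pow_dvd_pow _ (le_max_of_le_right (by omega))) _)
        have h4 := Nat.ordProj_mul_ordCompl_eq_self (k + 1) p
        have h5 : IsCoprime ((p : ℤ) ^ V) (ordCompl[p] (k + 1) : ℕ) :=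
          (Nat.isCoprime_iff_coprime.2 (Nat.coprime_ordCompl hp (Nat.succ_ne_zero k))).pow_left
        refine h5.dvd_of_dvd_mul_left (h3.trans (dvd_of_eq ?_))
        have h6 : ((k + 1 : ℕ) : ℤ) =
            p ^ (k + 1).factorization p * (ordCompl[p] (k + 1) : ℕ) := by exact_mod_cast h4.symm
        rw [h6, pow_add]
        ring
      · exact (h1 x (by omega)).trans
          (mul_dvd_mul_right (pow_dvd_pow _ (le_add_left (le_max_left _ _))) _)
    · by_cases h3 : m ≤ k + 1
      · exact ⟨0, by omega, by simp [max_eq_right h3, add_comm]⟩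
      · obtain ⟨t, t1, t2⟩ := h2.resolve_left (by omega)
        refine ⟨t + 1, by omega, ?_⟩
        rw [Nat.succ_descFactorial_succ, Nat.factorization_mul (Nat.add_one_ne_zero k)
          (Nat.descFactorial_pos.2 (by omega)).ne', Finsupp.add_apply]
        omega

theorem gain (hp : p.Prime) (h3 : 3 ≤ p) (hA : A.card ≤ n) (hB : B.card ≤ n) (hL : Nat.log p n ≤ L)
    (h : ∀ i, 1 ≤ i → i ≤ n → (p : ℤ) ^ V ∣ p ^ i * (ps A i - ps B i)) (i : ℕ) (hi : 1 ≤ i) :
    (p : ℤ) ^ V ∣ p ^ (n + L) * (ps A i - ps B i) := by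
  obtain ⟨m, h1, h2⟩ := chain hp h n le_rfl
  have hm : m ≤ n + L := by
    rcases h2 with rfl | ⟨t, t1, t2⟩
    · omega
    · have := val_desc hp (show t + 1 ≤ n by omega)
      have : (t + 1) / (p - 1) ≤ (t + 1) / 2 := Nat.div_le_div_left (by omega) two_pos
      omega
  have h4 : ∀ x, (p : ℤ) ^ V ∣ p ^ (n + L) * (A.esymm x - B.esymm x) := fun x => by
    by_cases hx : x ≤ n
    · exact (h1 x hx).trans (mul_dvd_mul_right (pow_dvd_pow _ hm) _)
    · simp [esymm_zero_of_lt (show A.card < x by omega), esymm_zero_of_lt (show B.card < x by omega)]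
  induction i using Nat.strong_induction_on with
  | _ k ih =>
    by_cases hk : k ≤ n
    · exact (h k hi hk).trans (mul_dvd_mul_right (pow_dvd_pow _ (by omega)) _)
    have e := newton_sub A B k
    have h0 : ((0, k) : ℕ × ℕ) ∈ (antidiagonal k).filter (fun a => a.1 < k) := by
      simpa using Nat.lt_of_succ_le hi
    rw [esymm_zero_of_lt (show A.card < k by omega), esymm_zero_of_lt (show B.card < k by omega),
      sub_self, mul_zero, eq_comm, mul_eq_zero, ← add_sum_erase _ _ h0] at e
    have e2 := eq_neg_of_add_eq_zero_left (e.resolve_left (by simp))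
    simp only [pow_zero, Multiset.esymm, Multiset.powersetCard_zero_left, Multiset.map_singleton,
      Multiset.prod_zero, Multiset.sum_singleton, sub_self, zero_mul, one_mul, zero_add] at e2
    rw [e2, mul_neg, dvd_neg, mul_sum]
    refine dvd_sum fun a ha => ?_
    obtain ⟨a0, a1⟩ := mem_erase.1 ha
    obtain ⟨a1, a2⟩ := mem_filter.1 a1
    have a3 := mem_antidiagonal.1 a1
    have a4 : a.2 < k := by
      by_contra hc
      exact a0 (Prod.ext (by simp only; omega) (by simp only; omega))
    rw [mul_left_comm, mul_add, ← mul_assoc, mul_left_comm _ (Multiset.sum _)]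
    exact Dvd.dvd.mul_left (dvd_add (Dvd.dvd.mul_right (h4 _) _)
      (Dvd.dvd.mul_left (ih _ a4 (by omega)) _)) _

end Pool.Agent.Lib.MP_4f0d88_nt.ED
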