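import Pool.Agent.Lib.MP_4f0d88_nt.ED.Fa
import Pool.Agent.Lib.MP_4f0d88_nt.ED.New
import Pool.Agent.Lib.MP_4f0d88_nt.ED.Dual

/-! The local inequality at one prime. -/

set_option autoImplicit false

namespace Pool.Agent.Lib.MP_4f0d88_nt.ED

open Polynomial Finset PP

theorem first_moment {f : ℤ[X]} (hf : f ≠ 0) : ∃ T : ℕ, lam f (X ^ T) ≠ 0 ∧ 2 * (T : ℤ) ≤ l1 f := by
  have hex : ∃ j, lam f (X ^ j) ≠ 0 := by
    obtain ⟨Z, e, hZ⟩ := exists_eq_pow_rootMultiplicity_mul_and_not_dvd _ hf 1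
    generalize rootMultiplicity 1 f = k at e
    have e' : f = pp (range k) (fun _ => 1) * ((-1) ^ k * Z) := by
      rw [e, pp_one, ← mul_assoc, ← mul_pow, C_1]
      congr 2
      ring
    refine ⟨k, ?_⟩
    rw [e', lam_top _ _ _ (by simp)]
    simpa [Nat.factorial_ne_zero] using fun h => hZ (dvd_iff_isRoot.2 h)
  refine ⟨Nat.find hex, Nat.find_spec hex, ?_⟩
  rcases Nat.eq_zero_or_pos (Nat.find hex) with h0 | h0
  · rw [h0]
    exact sum_nonneg fun _ _ => abs_nonneg _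
  refine l1_ge (K := ℤ) _ (fun j hj _ => ?_) ?_
    (fun j _ hj => not_not.1 (Nat.find_min hex hj)) (Nat.find_spec hex)
  · exact fun _ _ => mul_left_cancel₀ (Nat.cast_ne_zero.2 hj.ne')
  · simpa using Nat.find_min hex h0

theorem gain_poly {p V L : ℕ} (hp : p.Prime) (h3 : 3 ≤ p) {f : ℤ[X]} (h0 : lam f 1 = 0)
    (hL : Nat.log p ((l1 f).toNat / 2) ≤ L)
    (h : ∀ i ≤ (l1 f).toNat / 2, (p : ℤ) ^ V ∣ p ^ i * lam f (X ^ i)) (i : ℕ) (hi : 1 ≤ i) :
    (p : ℤ) ^ V ∣ p ^ ((l1 f).toNat / 2 + L) * lam f (X ^ i) := by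
  have hs : ∀ (c : ℕ → ℕ) (i : ℕ), ps (∑ n ∈ f.support, Multiset.replicate (c n) (n : ℤ)) i =
      ∑ n ∈ f.support, (c n : ℤ) * (n : ℤ) ^ i := fun c i => by
    induction f.support using Finset.induction_on with
    | empty => simp [ps]
    | insert a s ha ih =>
      rw [sum_insert ha, sum_insert ha, ← ih]
      simp [ps]
  set A := ∑ n ∈ f.support, Multiset.replicate (f.coeff n).toNat (n : ℤ)
  set B := ∑ n ∈ f.support, Multiset.replicate (-f.coeff n).toNat (n : ℤ)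
  have key : ∀ i, lam f (X ^ i) = ps A i - ps B i := fun i => by
    rw [hs, hs, ← sum_sub_distrib, lam_apply]
    exact sum_congr rfl fun n _ => by rw [← sub_mul, Int.toNat_sub_toNat_neg]; simp
  have c0 : ∀ M : Multiset ℤ, ps M 0 = M.card := fun M => by simp [ps]
  have e1 := key 0
  have e2 : ps A 0 + ps B 0 = l1 f := by
    rw [hs, hs, ← sum_add_distrib, l1]
    refine sum_congr rfl fun n _ => ?_
    rw [pow_zero, mul_one, mul_one, abs_eq_max_neg]
    omega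
  rw [pow_zero, h0, c0, c0] at e1
  rw [c0, c0] at e2
  rw [key]
  exact gain hp h3 (by omega) (by omega) hL (fun i _ h2 => key i ▸ h i h2) i hi

theorem class_taylor {p K : ℕ} (r : ℕ) (W : ℤ[X]) {Φ : ℤ[X]} (h : Φ.natDegree < K) :
    lam (X ^ r * expand ℤ p W) Φ =
      ∑ i ∈ range K, (taylor (r : ℤ) Φ).coeff i * (p ^ i * lam W (X ^ i)) := by
  rw [lam_class]
  simp only [lam_apply, mul_sum]
  rw [sum_comm]
  refine sum_congr rfl fun n _ => ?_
  rw [Nat.cast_add, add_comm, ← taylor_eval, eval_eq_sum_range' (by rwa [natDegree_taylor]), mul_sum]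
  exact sum_congr rfl fun i _ => by simp only [eval_pow, eval_X, Nat.cast_mul]; ring

theorem exists_prim {M : ℕ} (j : ℕ) {φ : ℤ[X]} (h : φ.natDegree < M) : ∃ Φ : ℤ[X],
    Φ.degree < (M + j : ℕ) ∧ ∀ (r : ℤ) (k : ℕ), ((k + j).descFactorial j : ℤ) *
      (taylor r Φ).coeff (k + j) = (M + j).factorial * (taylor r φ).coeff k := by
  set Φ : ℤ[X] := ∑ k ∈ range M, monomial (k + j)
    (φ.coeff k * ((M + j).factorial / (k + j).descFactorial j : ℕ)) with hΦ
  have h1 : derivative^[j] Φ = C ((M + j).factorial : ℤ) * φ := by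
    ext m
    rw [coeff_iterate_derivative, hΦ, finsetSum_coeff, coeff_C_mul]
    simp only [coeff_monomial, Nat.add_right_cancel_iff, sum_ite_eq', mem_range]
    split_ifs with hm
    · have h2 : (m + j).descFactorial j ∣ (M + j).factorial :=
        (Dvd.intro_left _ (Nat.factorial_mul_descFactorial (Nat.le_add_left j m))).trans
          (Nat.factorial_dvd_factorial (by omega))
      rw [nsmul_eq_mul, mul_left_comm, ← Nat.cast_mul, Nat.mul_div_cancel' h2, mul_comm]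
    · rw [coeff_eq_zero_of_natDegree_lt (by omega), smul_zero, mul_zero]
  refine ⟨Φ, (degree_sum_le _ _).trans_lt ((Finset.sup_lt_iff (WithBot.bot_lt_coe _)).2
    fun k hk => (degree_monomial_le _ _).trans_lt ?_), fun r k => ?_⟩
  · exact_mod_cast Nat.add_lt_add_right (mem_range.1 hk) j
  · have h3 : Function.Commute (derivative : ℤ[X] → ℤ[X]) (taylor r) := fun f => by
      simp [taylor_apply, derivative_comp]
    rw [← nsmul_eq_mul, ← coeff_iterate_derivative, h3.iterate_left j, h1, taylor_mul, taylor_C,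
      coeff_C_mul]

theorem norm_div_le {p a b : ℕ} [Fact p.Prime] {x d : ℤ} (hd : ¬ (p : ℤ) ^ a ∣ d)
    (hx : (p : ℤ) ^ (b + a) ∣ x) : padicNorm p (x / d) ≤ (p : ℚ) ^ (-(b : ℤ)) := by
  have hp : (0 : ℚ) < p := Nat.cast_pos.2 (Fact.out : p.Prime).pos
  have h1 := padicNorm.dvd_iff_norm_le.1 (show ((p ^ (b + a) : ℕ) : ℤ) ∣ x by exact_mod_cast hx)
  have h2 := not_le.1 (mt padicNorm.dvd_iff_norm_le.2
    (show ¬ ((p ^ a : ℕ) : ℤ) ∣ d by exact_mod_cast hd))
  rw [padicNorm.div, div_le_iff₀ ((zpow_pos hp _).trans h2)]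
  rw [Nat.cast_add, neg_add, zpow_add₀ hp.ne'] at h1
  exact h1.trans (mul_le_mul_of_nonneg_left h2.le (zpow_pos hp _).le)

theorem core {p N h D L v r1 r2 : ℕ} {F : ℕ → ℤ[X]} (hp : p.Prime) (h11 : 11 ≤ p)
    (hd : (X - 1) ^ N ∣ glue p F) (q1 : r1 < p) (q2 : r2 < p) (hne : r1 ≠ r2) (f1 : F r1 ≠ 0)
    (f2 : F r2 ≠ 0) (hl : l1 (glue p F) ≤ 2 * N + 2 * h) (hD : (glue p F).natDegree ≤ D)
    (hL : Nat.log p (2 * (N + h)) ≤ L) (hv : ∀ r < p, ∀ i, (p : ℤ) ^ v ∣ p ^ i * lam (F r) (X ^ i))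
    (hs : (2 * (N + h)) ^ 2 ≤ p ^ v) :
    p ^ v ≤ 2 * (N + h) * D ^ (14 * (L + 1)) ∨ N ≤ 8 * h ∨ p ^ N ≤ D ^ (16 * h) := by
  have := Fact.mk hp
  set σ := 2 * (N + h) with hσ
  set ν : ℕ → ℕ → ℤ := fun r i => p ^ i * lam (F r) (X ^ i) with hν
  have hp0 : (p : ℤ) ≠ 0 := Nat.cast_ne_zero.2 hp.ne_zero
  have l0 : ∀ r, 0 ≤ l1 (F r) := fun r => sum_nonneg fun _ _ => abs_nonneg _
  have l2 := (l1_glue F).trans hl
  have l3 : ∀ r < p, l1 (F r) ≤ σ := fun r hr => by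
    have := single_le_sum (f := fun r => l1 (F r)) (fun r _ => l0 r) (mem_range.2 hr)
    omega
  have d1 : ∀ r < p, ∀ n ∈ (F r).support, r + p * n ≤ D := fun r hr n hn =>
    (le_natDegree_of_ne_zero (by rw [coeff_glue F hr]; exact mem_support_iff.1 hn)).trans hD
  have d2 : 1 ≤ D := by
    obtain ⟨n1, h1⟩ := support_nonempty.2 f1
    obtain ⟨n2, h2⟩ := support_nonempty.2 f2
    have := d1 _ q1 _ h1
    have := d1 _ q2 _ h2
    omega
  have b1 : ∀ r < p, ∀ i, |ν r i| ≤ (σ * D ^ i : ℕ) := fun r hr i => by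
    simp only [hν, lam_apply, mul_sum]
    push_cast
    refine (abs_sum_le_sum_abs _ _).trans (le_trans ?_
      (mul_le_mul_of_nonneg_right (l3 r hr) (by positivity)))
    rw [l1, sum_mul]
    refine sum_le_sum fun n hn => ?_
    rw [mul_left_comm, abs_mul, eval_pow, eval_X, ← mul_pow, abs_pow, ← Nat.cast_mul, Nat.abs_cast]
    have := d1 r hr n hn
    exact mul_le_mul_of_nonneg_left (pow_le_pow_left₀ (by positivity)
      (Nat.cast_le.2 (by omega)) i) (abs_nonneg _)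
  obtain ⟨T1, t1, t1'⟩ := first_moment f1
  obtain ⟨T2, t2, t2'⟩ := first_moment f2
  have hex : ∃ V, ∃ r < p, ∃ i ≤ σ, ¬ (p : ℤ) ^ (V + 1) ∣ ν r i := by
    have h1 : ν r1 T1 ≠ 0 := mul_ne_zero (pow_ne_zero _ hp0) t1
    refine ⟨(ν r1 T1).natAbs, r1, q1, T1, by have := l3 _ q1; omega, fun h => ?_⟩
    have h2 := Nat.le_of_dvd (Int.natAbs_pos.2 h1) (Int.natCast_dvd.1 (by exact_mod_cast h))
    have := Nat.lt_pow_self (n := (ν r1 T1).natAbs + 1) hp.one_lt
    omega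
  obtain ⟨r0, q0, i0, i1, i2⟩ := Nat.find_spec hex
  have v1 : ∀ r < p, ∀ i ≤ σ, (p : ℤ) ^ Nat.find hex ∣ ν r i := fun r hr i hi => by
    rcases Nat.eq_zero_or_pos (Nat.find hex) with h0 | h0
    · rw [h0, pow_zero]; exact one_dvd _
    · by_contra hc
      exact Nat.find_min hex (Nat.sub_one_lt h0.ne') ⟨r, hr, i, hi, by rwa [Nat.sub_add_cancel h0]⟩
  generalize Nat.find hex = V at i2 v1
  have v2 : p ^ v ≤ p ^ V := Nat.pow_le_pow_right hp.pos (by
    by_contra hc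
    exact i2 ((pow_dvd_pow _ (by omega)).trans (hv r0 q0 i0)))
  have n0 : ν r0 i0 ≠ 0 := fun e => i2 (e ▸ dvd_zero _)
  have w0 : p ^ V ≤ σ * D ^ i0 := by
    exact_mod_cast (Int.le_of_dvd (abs_pos.2 n0) ((dvd_abs _ _).2 (v1 r0 q0 i0 i1))).trans (b1 r0 q0 i0)
  have hj : ∃ j, p ^ V ≤ σ * D ^ j := ⟨i0, w0⟩
  have j1 := Nat.find_spec hj
  have j2 := Nat.find_min' hj w0
  have j3 : ∀ r < p, ∀ i < Nat.find hj, ν r i = 0 := fun r hr i hi =>
    Int.eq_zero_of_abs_lt_dvd (v1 r hr i (by omega)) ((b1 r hr i).trans_lt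
      (by exact_mod_cast not_le.1 (Nat.find_min hj hi)))
  generalize Nat.find hj = j at j1 j2 j3
  by_cases hj0 : j ≤ 14 * (L + 1)
  · exact Or.inl (v2.trans (j1.trans (Nat.mul_le_mul_left _ (Nat.pow_le_pow_right d2 hj0))))
  refine Or.inr ?_
  set n : ℕ → ℕ := fun r => (l1 (F r)).toNat / 2 with hn
  have j4 : ∀ r < p, ∀ T : ℕ, lam (F r) (X ^ T) ≠ 0 → 2 * (T : ℤ) ≤ l1 (F r) → j ≤ n r :=
    fun r hr T h1 h2 => by
      have : j ≤ T := not_lt.1 fun h3 => mul_ne_zero (pow_ne_zero _ hp0) h1 (j3 r hr T h3)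
      simp only [hn]
      omega
  have hτ := dual (K := σ + 1 - j) (M := N - j) hp
    (fun r k => (ν r (k + j) : ℚ) / (((k + j).descFactorial j : ℤ) : ℚ))
    (fun r => min (n r) V + (2 * L + j / 10 + 2) - j) (t := (p : ℚ) ^ (-((V + 1 : ℕ) : ℤ)))
    (by positivity) (fun φ hφ => ?_) ?_ fun r hr k hk hτ => ?_
  · have h1 : 2 * ((∑ r ∈ range p, n r : ℕ) : ℤ) ≤ ∑ r ∈ range p, l1 (F r) := by
      rw [Nat.cast_sum, mul_sum]
      exact sum_le_sum fun r _ => by have := l0 r; simp only [hn]; omega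
    rcases count (h := h) (by omega) q1 q2 hne (j4 _ q1 _ t1 t1') (j4 _ q2 _ t2 t2') (by omega) hτ
      with h2 | h2
    · exact Or.inl h2
    rcases Nat.eq_zero_or_pos V with rfl | h3
    · have := Nat.le_mul_of_pos_right N (show 0 < j by omega)
      exact Or.inl (by omega)
    have h4 : p ^ V ≤ D ^ (2 * j) := Nat.le_of_mul_le_mul_left (a := p ^ V) (by
      calc p ^ V * p ^ V ≤ σ * D ^ j * (σ * D ^ j) := Nat.mul_le_mul j1 j1
        _ = σ ^ 2 * D ^ (2 * j) := by ring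
        _ ≤ _ := Nat.mul_le_mul_right _ (hs.trans v2)) (pow_pos hp.pos V)
    refine Or.inr ((Nat.pow_le_pow_iff_left h3.ne').1 ?_)
    calc (p ^ N) ^ V = (p ^ V) ^ N := pow_right_comm _ _ _
      _ ≤ (D ^ (2 * j)) ^ N := Nat.pow_le_pow_left h4 N
      _ = D ^ (2 * (N * j)) := by ring
      _ ≤ D ^ (16 * h * V) := Nat.pow_le_pow_right d2 (by nlinarith)
      _ = _ := pow_mul _ _ _
  · obtain ⟨Φ, h1, h2⟩ := exists_prim j hφ
    have h3 : N - j + j = N := by omega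
    rw [h3] at h1 h2
    have h4 := lam_eq_zero hd h1
    have h5 : Φ.natDegree < j + (σ + 1 - j) := by
      have : Φ.natDegree ≤ N := natDegree_le_of_degree_le h1.le
      omega
    rw [glue, map_sum, LinearMap.sum_apply] at h4
    refine mul_left_cancel₀ (a := (N.factorial : ℚ)) (by positivity) ?_
    rw [mul_zero, mul_sum, ← Int.cast_zero, ← h4, Int.cast_sum]
    refine sum_congr rfl fun r hr => ?_
    rw [class_taylor r _ h5, sum_range_add, sum_eq_zero fun i hi =>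
      mul_eq_zero_of_right _ (j3 r (mem_range.1 hr) i (mem_range.1 hi)), zero_add, Int.cast_sum,
      mul_sum]
    refine sum_congr rfl fun k _ => ?_
    have h6 := congrArg (Int.cast : ℤ → ℚ) (h2 r k)
    have h7 : (((k + j).descFactorial j : ℕ) : ℚ) ≠ 0 :=
      Nat.cast_ne_zero.2 (Nat.descFactorial_pos.2 (Nat.le_add_left j k)).ne'
    simp only [hν, add_comm j k]
    push_cast at h6 ⊢
    rw [← mul_assoc, ← h6]
    field_simp
  · refine ⟨r0, q0, i0 - j, by omega, ?_⟩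
    have h1 := not_le.1 (mt padicNorm.dvd_iff_norm_le.2
      (show ¬ ((p ^ (V + 1) : ℕ) : ℤ) ∣ ν r0 i0 by exact_mod_cast i2))
    rw [Nat.sub_add_cancel j2, padicNorm.div]
    refine h1.trans_le (le_div_self (padicNorm.nonneg _) ((padicNorm.nonneg _).lt_of_ne'
      (padicNorm.nonzero ?_)) (padicNorm.of_int _))
    exact_mod_cast (Nat.descFactorial_pos.2 j2).ne'
  · have h1 := val_desc hp (Nat.le_add_left j k)
    have h2 : j / (p - 1) ≤ j / 10 := Nat.div_le_div_left (by omega) (by norm_num)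
    have h3 : Nat.log p (k + j) ≤ L := (Nat.log_mono_right (by omega)).trans hL
    refine norm_div_le (a := j / 10 + L + 1) (fun hc => ?_) ?_
    · have := (hp.pow_dvd_iff_le_factorization
        (Nat.descFactorial_pos.2 (Nat.le_add_left j k)).ne').1 (by exact_mod_cast hc)
      omega
    by_cases h4 : V ≤ n r
    · exact (pow_dvd_pow _ (by omega)).mul_right _
    have h5 : n r ≤ σ := by have := l3 r hr; simp only [hn]; omega
    have h6 := gain_poly hp (by omega) (V := V) (by simpa [hν] using j3 r hr 0 (by omega))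
      ((Nat.log_mono_right h5).trans hL) (fun i hi => v1 r hr i (hi.trans h5)) (k + j) (by omega)
    obtain ⟨a, ha⟩ : ∃ a, k + j = a + (n r + L) := ⟨k + j - (n r + L), by omega⟩
    refine (pow_dvd_pow _ (show _ ≤ a + V by omega)).trans ?_
    simp only [hν]
    rw [show (p : ℤ) ^ (k + j) = p ^ a * p ^ (n r + L) by rw [ha, pow_add], pow_add, mul_assoc]
    exact mul_dvd_mul_left _ h6

end Pool.Agent.Lib.MP_4f0d88_nt.ED
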