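import Pool.Agent.Lib.MP_4f0d88_nt.PP.Loc

/-! The moments of a residue class are divisible by the power of `p` in `N !`. -/

set_option autoImplicit false

namespace Pool.Agent.Lib.MP_4f0d88_nt.PP

open Polynomial Finset

variable {N p : ℕ} {P : ℤ[X]}

theorem lam_eq_zero (h : (X - 1) ^ N ∣ P) {φ : ℤ[X]} (hφ : φ.degree < N) : lam P φ = 0 := by
  obtain ⟨Z, rfl⟩ := h
  have e : ((X : ℤ[X]) - 1) ^ N * Z = pp (range N) (fun _ => 1) * ((-1) ^ N * Z) := by
    rw [pp_one, ← mul_assoc, ← mul_pow]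
    congr 2
    ring
  rw [e, lam_top _ _ _ (by simpa using natDegree_le_of_degree_le hφ.le), card_range,
    coeff_eq_zero_of_degree_lt hφ, mul_zero, zero_mul]

theorem fact_dvd_lam (h : (X - 1) ^ N ∣ P) (φ : ℤ[X]) : (N.factorial : ℤ) ∣ lam P φ := by
  have hm := monic_descPochhammer ℤ N
  rw [← modByMonic_add_div φ (descPochhammer ℤ N), map_add, lam_eq_zero h (by
    simpa [degree_eq_natDegree hm.ne_zero, descPochhammer_natDegree] using
      degree_modByMonic_lt φ hm), zero_add, lam_apply]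
  refine dvd_sum fun n _ => Dvd.dvd.mul_left ?_ _
  rw [eval_mul, descPochhammer_eval_eq_descFactorial]
  exact (Int.natCast_dvd_natCast.2 (n.factorial_dvd_descFactorial N)).mul_right _

theorem lam_class (t : ℕ) (W φ : ℤ[X]) :
    lam (X ^ t * expand ℤ p W) φ = ∑ n ∈ W.support, W.coeff n * φ.eval ((t + p * n : ℕ) : ℤ) := by
  conv_lhs => rw [W.as_sum_support, map_sum, mul_sum, map_sum, LinearMap.sum_apply]
  exact sum_congr rfl fun n _ => by
    rw [expand_monomial, X_pow_mul_monomial, lam_mono, add_comm, mul_comm n]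

theorem pow_dvd_nu (hp : p.Prime) {F : ℕ → ℤ[X]} (h : (X - 1) ^ N ∣ glue p F) {v r : ℕ}
    (hv : p ^ v ∣ N.factorial) (hr : r < p) (i : ℕ) :
    (p : ℤ) ^ v ∣ (p : ℤ) ^ i * lam (F r) (X ^ i) := by
  have := Fact.mk hp
  set φ : ℤ[X] := (1 - (X - C (r : ℤ)) ^ (p - 1)) ^ p ^ v * (X - C (r : ℤ)) ^ i with hφ
  have h1 : (p : ℤ) ^ v ∣ lam (glue p F) φ :=
    (by exact_mod_cast hv : (p : ℤ) ^ v ∣ N.factorial).trans (fact_dvd_lam h φ)
  rw [glue, map_sum, LinearMap.sum_apply, ← add_sum_erase _ _ (mem_range.2 hr),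
    dvd_add_left (dvd_sum fun t ht => ?_)] at h1
  · refine (dvd_iff_dvd_of_dvd_sub ?_).1 h1
    rw [lam_class, lam_apply, mul_sum, ← sum_sub_distrib]
    refine dvd_sum fun n _ => ?_
    have h2 : (p : ℤ) ∣ 1 - ((p : ℤ) * n) ^ (p - 1) - 1 := by
      rw [sub_sub_cancel_left]
      exact ((dvd_mul_right _ _).trans (dvd_pow_self _ (Nat.sub_ne_zero_of_lt hp.one_lt))).neg_right
    have h3 := (pow_dvd_pow _ v.le_succ).trans (dvd_sub_pow_of_dvd_sub h2 v)
    have h4 := (h3.mul_left ((F r).coeff n)).mul_right (((p : ℤ) * n) ^ i)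
    simp only [hφ, eval_mul, eval_pow, eval_sub, eval_one, eval_X, eval_C, Nat.cast_add,
      Nat.cast_mul, add_sub_cancel_left]
    refine h4.trans (dvd_of_eq ?_)
    ring
  · rw [lam_class]
    refine dvd_sum fun n _ => Dvd.dvd.mul_left ?_ _
    have h2 : (((t + p * n : ℕ) - r : ℤ) : ZMod p) ≠ 0 := fun h0 => ne_of_mem_erase ht (by
      rw [ZMod.intCast_zmod_eq_zero_iff_dvd, ← Nat.modEq_iff_dvd, Nat.ModEq,
        Nat.add_mul_mod_self_left, Nat.mod_eq_of_lt hr,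
        Nat.mod_eq_of_lt (mem_range.1 (mem_of_mem_erase ht))] at h0
      exact h0.symm)
    have h3 : (p : ℤ) ∣ 1 - ((t + p * n : ℕ) - r : ℤ) ^ (p - 1) := by
      rw [← ZMod.intCast_zmod_eq_zero_iff_dvd, Int.cast_sub, Int.cast_pow,
        ZMod.pow_card_sub_one_eq_one h2, Int.cast_one, sub_self]
    simp only [hφ, eval_mul, eval_pow, eval_sub, eval_one, eval_X, eval_C]
    exact ((pow_dvd_pow _ (Nat.lt_pow_self hp.one_lt).le).trans (pow_dvd_pow_of_dvd h3 _)).mul_right _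

end Pool.Agent.Lib.MP_4f0d88_nt.PP
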