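import Pool.Agent.Lib.MP_4f0d88_nt.ED.Core
import Pool.Agent.Lib.MP_4f0d88_nt.ED.Fa

/-! Descent to two residue classes, choice of the prime, and the final inequality. -/

set_option autoImplicit false

namespace Pool.Agent.Lib.MP_4f0d88_nt.ED

open Polynomial Finset PP

variable {p N h D : ℕ} {P : ℤ[X]}

theorem dvd_of_expand (hp : 0 < p) {r : ℕ} {W : ℤ[X]} (hW : W ≠ 0)
    (hd : (X - 1) ^ N ∣ X ^ r * expand ℤ p W) : (X - 1) ^ N ∣ W := by
  obtain ⟨Z, e, hZ⟩ := exists_eq_pow_rootMultiplicity_mul_and_not_dvd W hW 1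
  generalize rootMultiplicity 1 W = k at e
  rw [C_1] at e hZ
  rcases le_or_gt N k with hk | hk
  · exact e ▸ (pow_dvd_pow _ hk).mul_right Z
  have h1 := (pow_dvd_pow _ hk).trans hd
  rw [e, map_mul, map_pow, map_sub, expand_X, map_one, ← mul_geom_sum, mul_pow, mul_assoc,
    mul_left_comm, pow_succ, mul_dvd_mul_iff_left (pow_ne_zero _ (C_1 (R := ℤ) ▸ X_sub_C_ne_zero 1)),
    ← C_1, dvd_iff_isRoot] at h1
  refine (hZ (C_1 (R := ℤ) ▸ dvd_iff_isRoot.2 ?_)).elim
  simpa [eval_finsetSum, hp.ne'] using h1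

theorem le_deg (h0 : P ≠ 0) (hd : (X - 1) ^ N ∣ P) : N ≤ P.natDegree := by
  have h1 := natDegree_le_of_dvd hd h0
  rwa [← C_1, natDegree_pow, natDegree_X_sub_C, mul_one] at h1

theorem descent (hp : p.Prime) (h11 : 11 ≤ p) (hN : 0 < N)
    (hs : (2 * (N + h)) ^ 2 ≤ p ^ (N / p)) (d : ℕ) :
    ∀ P : ℤ[X], P.natDegree = d → P ≠ 0 → (X - 1) ^ N ∣ P → l1 P ≤ 2 * N + 2 * h → d ≤ D →
      p ^ (N / p) ≤ 2 * (N + h) * D ^ (14 * (Nat.log p (2 * (N + h)) + 1)) ∨ N ≤ 8 * h ∨
        p ^ N ≤ D ^ (16 * h) := by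
  induction d using Nat.strong_induction_on with
  | _ d ih =>
  intro P e h0 hd hl hD
  obtain ⟨F, rfl⟩ := exists_glue hp.pos P
  obtain ⟨r, hr, f1⟩ := exists_ne_zero_of_sum_ne_zero h0
  have f2 : F r ≠ 0 := fun h => f1 (by simp [h])
  by_cases h2 : ∃ t < p, t ≠ r ∧ F t ≠ 0
  · obtain ⟨t, ht, hne, f3⟩ := h2
    have hv : p ^ (N / p) ∣ N.factorial :=
      (hp.pow_dvd_factorial_iff (Nat.lt_succ_self (Nat.log p N + 1)).le).2 (by
        simpa using single_le_sum (f := fun i => N / p ^ i) (fun _ _ => Nat.zero_le _)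
          (mem_Ico.2 ⟨le_rfl, by omega⟩ : 1 ∈ Ico 1 (Nat.log p N + 1 + 1)))
    exact core hp h11 hd ht (mem_range.1 hr) hne f3 f2 hl (e ▸ hD) le_rfl
      (fun r hr i => pow_dvd_nu hp hd hv hr i) hs
  · have e1 : glue p F = X ^ r * expand ℤ p (F r) := sum_eq_single_of_mem r hr fun t ht hne => by
      rw [not_not.1 fun f3 => h2 ⟨t, mem_range.1 ht, hne, f3⟩, map_zero, mul_zero]
    have h3 := dvd_of_expand hp.pos f2 (e1 ▸ hd)
    have h4 := le_deg f2 h3
    rw [e1, (monic_X_pow r).natDegree_mul' (right_ne_zero_of_mul f1), natDegree_expand] at e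
    have h5 : (F r).natDegree < d := by nlinarith
    exact ih _ h5 _ rfl f2 h3 (((single_le_sum (f := fun r => l1 (F r))
      (fun _ _ => sum_nonneg fun _ _ => abs_nonneg _) hr).trans (l1_glue F)).trans hl)
      (h5.le.trans hD)

theorem size (hN : 14400 ≤ N) (hh : 8 * h < N) (h11 : 11 ≤ p) (hp : p ≤ 2 * (N.sqrt + 10)) :
    (2 * (N + h)) ^ 2 ≤ p ^ (N / p) := by
  have h1 : 120 ≤ N.sqrt := Nat.le_sqrt.2 hN
  have h2 := N.sqrt_le
  have h3 := N.lt_succ_sqrt
  generalize N.sqrt = s at *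
  obtain ⟨u, hu⟩ : ∃ u, u = s / 30 := ⟨_, rfl⟩
  have h4 : 10 * u ≤ N / p := (Nat.le_div_iff_mul_le (by omega)).2
    ((Nat.mul_le_mul (by omega : 10 * u ≤ s / 3) (by omega : p ≤ 3 * s)).trans
      (by rw [← mul_assoc]; exact (Nat.mul_le_mul_right s (Nat.div_mul_le_self s 3)).trans h2))
  have h5 : s + 1 ≤ 2 ^ (u + 5) := by
    have := Nat.lt_two_pow_self (n := u)
    rw [pow_add]
    omega
  calc (2 * (N + h)) ^ 2 ≤ (2 ^ 2 * (2 ^ (u + 5) * 2 ^ (u + 5))) ^ 2 :=
        Nat.pow_le_pow_left ((by omega : 2 * (N + h) ≤ 2 ^ 2 * N).trans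
          (Nat.mul_le_mul_left _ (h3.le.trans (Nat.mul_le_mul h5 h5)))) 2
    _ = 2 ^ (4 * u + 24) := by ring
    _ ≤ 2 ^ (N / p) := Nat.pow_le_pow_right two_pos (by omega)
    _ ≤ _ := Nat.pow_le_pow_left (by omega) _

theorem log_le_log_nat {a b c d : ℕ} (ha : 0 < a) (h : a ^ b ≤ c ^ d) :
    b * Real.log a ≤ d * Real.log c := by
  rw [← Real.log_pow, ← Real.log_pow]
  exact Real.log_le_log (by positivity) (by exact_mod_cast h)

theorem main (h2 : 2 ≤ N) (h0 : P ≠ 0) (hd : (X - 1) ^ N ∣ P) (hl : l1 P ≤ 2 * N + 2 * h) :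
    N * Real.log (2 + h / Real.log N) ≤ 50000 * (h + Real.log N) * Real.log P.natDegree := by
  have hD := le_deg h0 hd
  have hN : (0 : ℝ) < N := by exact_mod_cast (by omega : 0 < N)
  have l1 : Real.log N ≤ Real.log P.natDegree := Real.log_le_log hN (by exact_mod_cast hD)
  have l2 : 0.69 ≤ Real.log N := (le_trans (by norm_num) Real.log_two_gt_d9.le).trans
    (Real.log_le_log two_pos (by exact_mod_cast h2))
  have one_le : ∀ n : ℕ, 3 ≤ n → 1 ≤ Real.log n := fun n hn =>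
    (Real.le_log_iff_exp_le (by exact_mod_cast (by omega : 0 < n))).2
      ((Real.exp_one_lt_d9.le.trans (by norm_num)).trans (by exact_mod_cast hn : (3 : ℝ) ≤ n))
  have hh : (0 : ℝ) ≤ h := h.cast_nonneg
  set y := Real.log N with hy
  set δ := Real.log P.natDegree with hδ
  have hq : 0 ≤ h / y := by positivity
  have e : h + y = y * (2 + h / y - 1) := by field_simp; ring
  set q := 2 + h / y with hq'
  have q2 : 2 ≤ q := by linarith
  rcases lt_or_ge N 14400 with hs | hs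
  · have h3 := Real.log_le_sub_one_of_pos (by linarith : 0 < q)
    have h4 : (N : ℝ) ≤ 14400 := by exact_mod_cast hs.le
    calc N * Real.log q ≤ 14400 * (q - 1) := by gcongr; exact Real.log_nonneg (by linarith)
      _ ≤ 50000 * (0.69 * (q - 1)) * 0.69 := by linarith
      _ ≤ _ := by rw [e]; gcongr <;> linarith
  have y1 : 1 ≤ y := one_le N (by omega)
  have q3 : q ≤ 2 + h := by linarith [div_le_self hh y1]
  have big : ∀ c : ℝ, c ≤ 50000 → c * (h * δ) ≤ 50000 * (h + y) * δ := fun c hc => by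
    rw [← mul_assoc]; gcongr; linarith
  by_cases h8 : N ≤ 8 * h
  · have h3 := Real.log_le_sub_one_of_pos (by positivity : 0 < q / N)
    rw [Real.log_div (by positivity) hN.ne', sub_le_iff_le_add] at h3
    have h4 : (N : ℝ) ≤ 8 * h := by exact_mod_cast h8
    have h5 : (1 : ℝ) ≤ h := by exact_mod_cast (by omega : 1 ≤ h)
    have h6 := mul_le_mul_of_nonneg_left h3 hN.le
    rw [mul_add, mul_sub, mul_div_cancel₀ _ hN.ne'] at h6
    refine le_trans ?_ (big 11 (by norm_num))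
    nlinarith [mul_le_mul h4 l1 (by linarith) (by linarith), mul_le_mul_of_nonneg_left (y1.trans l1) hh]
  obtain ⟨p, hp, p1, p2⟩ := Nat.exists_prime_lt_and_le_two_mul (⌈q⌉₊.sqrt + 10) (by omega)
  have c1 : ⌈q⌉₊ ≤ 2 + h := Nat.ceil_le.2 (by exact_mod_cast q3)
  have c2 : ⌈q⌉₊.sqrt ≤ N.sqrt := Nat.sqrt_le_sqrt (by omega)
  have c3 : Real.log q ≤ 2 * Real.log p := by
    have := Real.log_le_log (by linarith) ((Nat.le_ceil q).trans (Nat.cast_le.2
      (⌈q⌉₊.lt_succ_sqrt'.le.trans (Nat.pow_le_pow_left (by omega : ⌈q⌉₊.sqrt.succ ≤ p) 2))))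
    rwa [Nat.cast_pow, Real.log_pow] at this
  have c4 : (p : ℝ) ≤ 26 * (q - 1) := by
    have h3 : (p : ℝ) ≤ 2 * (⌈q⌉₊ + 10) := by
      exact_mod_cast p2.trans (Nat.mul_le_mul_left 2 (Nat.add_le_add_right ⌈q⌉₊.sqrt_le_self 10))
    linarith [Nat.ceil_lt_add_one (by linarith : 0 ≤ q)]
  have c5 : p ≤ N := by
    have := N.sqrt_le
    have h1 : 120 ≤ N.sqrt := Nat.le_sqrt.2 hs
    nlinarith
  have c6 := one_le p (by omega)
  have c7 : Real.log p ≤ y := Real.log_le_log (by exact_mod_cast hp.pos) (by exact_mod_cast c5)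
  have c8 := mul_le_mul_of_nonneg_left c3 hN.le
  rcases descent (h := h) hp (by omega) (by omega) (size hs (by omega) (by omega) (by omega)) _ P rfl
    h0 hd hl le_rfl with h3 | h3 | h3
  · have h4 : 2 * (N + h) ≤ N ^ 2 := by nlinarith
    have h5 := log_le_log_nat hp.pos (h3.trans ((Nat.mul_le_mul_right _
      (h4.trans (Nat.pow_le_pow_left hD 2))).trans_eq (pow_add _ _ _).symm))
    have h6 := log_le_log_nat hp.pos ((Nat.pow_log_le_self p (by omega)).trans h4)
    have h7 : (N : ℝ) ≤ p * (2 * (N / p : ℕ)) := by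
      have := Nat.div_pos c5 hp.pos
      exact_mod_cast (Nat.lt_mul_div_succ N hp.pos).le.trans (Nat.mul_le_mul_left p (by omega))
    generalize Nat.log p (2 * (N + h)) = L, N / p = v at h5 h6 h7
    push_cast at h5 h6
    have h9 : v * Real.log p * Real.log p ≤ 44 * y * δ :=
      calc _ ≤ (2 + 14 * (L + 1)) * δ * Real.log p := by gcongr
        _ = (14 * (L * Real.log p) + 16 * Real.log p) * δ := by ring
        _ ≤ (14 * (2 * y) + 16 * y) * δ := by gcongr
        _ = _ := by ring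
    calc _ ≤ N * (2 * (Real.log p * Real.log p)) := by
          refine c8.trans ?_
          gcongr
          nlinarith
      _ ≤ p * (2 * v) * (2 * (Real.log p * Real.log p)) := by gcongr
      _ = 4 * p * (v * Real.log p * Real.log p) := by ring
      _ ≤ 4 * (26 * (q - 1)) * (44 * y * δ) := by gcongr; linarith
      _ = 4576 * (y * (q - 1)) * δ := by ring
      _ ≤ _ := by rw [← e]; gcongr; linarith
  · exact (h8 h3).elim
  · have h5 := log_le_log_nat hp.pos h3
    push_cast at h5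
    refine le_trans ?_ (big 32 (by norm_num))
    linarith

end Pool.Agent.Lib.MP_4f0d88_nt.ED
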